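import Mathlib
import Pool.Agent.N520.SV.Stm
import Pool.Agent.Helper240.Amen.HB

/-!
# SV/MEAN (helper225): invariant means on virtually solvable groups
-/

set_option autoImplicit false

namespace Pool.Agent.N225.SV

open Pool.Agent.N520.SV

theorem mean_of_invHB (G : Type) [Group G] (h : Pool.Agent.Helper240.Amen.InvHB G) :
    HasMean G := by
  classical
  have bdd : ∀ f : Pool.Agent.Helper240.Amen.Bdd G, BddAbove (Set.range f.1) := by
    intro f
    obtain ⟨C, hC⟩ := f.2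
    refine ⟨C, ?_⟩
    rintro _ ⟨x, rfl⟩
    exact (le_abs_self _).trans (hC x)
  obtain ⟨M, hM1, hM2⟩ := h (Pool.Agent.Helper240.Amen.Bdd G) (Pool.Agent.Helper240.Amen.tra G)
    (fun f => ⨆ x, f.1 x) (by
      intro c hc f
      exact (Real.mul_iSup_of_nonneg hc.le _).symm) (by
      intro f g
      apply ciSup_le
      intro x
      exact add_le_add (le_ciSup (bdd f) x) (le_ciSup (bdd g) x)) (by
      intro g f
      apply ciSup_le
      intro x
      exact le_ciSup (bdd f) (g⁻¹ * x))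
  have hle : ∀ (f : Pool.Agent.Helper240.Amen.Bdd G) (c : ℝ), (∀ x, f.1 x ≤ c) → M f ≤ c :=
    fun f c hf => (hM1 f).trans (ciSup_le hf)
  refine ⟨fun f => if hf : f ∈ Pool.Agent.Helper240.Amen.Bdd G then M ⟨f, hf⟩ else 0, ?_, ?_,
    ?_, ?_⟩
  · intro f g hf hg
    have hf' : f ∈ Pool.Agent.Helper240.Amen.Bdd G := hf
    have hg' : g ∈ Pool.Agent.Helper240.Amen.Bdd G := hg
    have hfg : (fun γ => f γ + g γ) ∈ Pool.Agent.Helper240.Amen.Bdd G :=
      (Pool.Agent.Helper240.Amen.Bdd G).add_mem hf' hg'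
    simp only
    rw [dif_pos hfg, dif_pos hf', dif_pos hg', ← map_add]
    rfl
  · intro c f hf
    have hf' : f ∈ Pool.Agent.Helper240.Amen.Bdd G := hf
    have hcf : (fun γ => c * f γ) ∈ Pool.Agent.Helper240.Amen.Bdd G :=
      (Pool.Agent.Helper240.Amen.Bdd G).smul_mem c hf'
    simp only
    rw [dif_pos hcf, dif_pos hf', ← smul_eq_mul, ← map_smul]
    rfl
  · have h1 : (fun _ : G => (1 : ℝ)) ∈ Pool.Agent.Helper240.Amen.Bdd G := ⟨1, fun x => by simp⟩
    simp only
    rw [dif_pos h1]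
    apply le_antisymm
    · exact hle _ 1 fun x => le_rfl
    · have := hle (-⟨fun _ : G => (1 : ℝ), h1⟩) (-1) (fun x => le_rfl)
      rw [map_neg] at this
      linarith
  · intro f hf δ
    have hf' : f ∈ Pool.Agent.Helper240.Amen.Bdd G := hf
    have hδ : (fun γ => f (δ * γ)) ∈ Pool.Agent.Helper240.Amen.Bdd G := by
      obtain ⟨C, hC⟩ := hf
      exact ⟨C, fun x => hC _⟩
    simp only
    rw [dif_pos hδ, dif_pos hf', ← hM2 δ⁻¹ ⟨f, hf'⟩]
    congr 1
    apply Subtype.ext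
    funext x
    show f (δ * x) = f (δ⁻¹⁻¹ * x)
    rw [inv_inv]

theorem mean_of_finiteIndex (Γ : Type) [Group Γ] (H : Subgroup Γ) (hH : H.FiniteIndex)
    (h : HasMean H) : HasMean Γ := by
  classical
  obtain ⟨m, hadd, hsmul, hone, hinv⟩ := h
  have hfin : Finite (Γ ⧸ H) := Subgroup.finite_quotient_of_finiteIndex
  have hf := Fintype.ofFinite (Γ ⧸ H)
  set F : (Γ → ℝ) → Γ → ℝ := fun f γ => m fun k : H => f (γ * k) with hF
  have hb : ∀ (f : Γ → ℝ) (γ : Γ), Bdd f → Bdd fun k : H => f (γ * k) := by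
    rintro f γ ⟨C, hC⟩
    exact ⟨C, fun k => hC _⟩
  have hFk : ∀ (f : Γ → ℝ) (γ γ' : Γ), Bdd f → ((γ : Γ ⧸ H) = (γ' : Γ ⧸ H)) →
      F f γ = F f γ' := by
    intro f γ γ' hbf hγ
    rw [QuotientGroup.eq] at hγ
    have h1 := hinv (fun k : H => f (γ * k)) (hb f γ hbf) ⟨γ⁻¹ * γ', hγ⟩
    have h2 : (fun k : H => f (γ * ((⟨γ⁻¹ * γ', hγ⟩ * k : H) : Γ))) =
        fun k : H => f (γ' * k) := by
      funext k
      congr 1
      show γ * (γ⁻¹ * γ' * k) = γ' * k
      group
    rw [h2] at h1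
    exact h1.symm
  have hcard : (Fintype.card (Γ ⧸ H) : ℝ) ≠ 0 := by
    have : 0 < Fintype.card (Γ ⧸ H) := Fintype.card_pos
    exact_mod_cast this.ne'
  refine ⟨fun f => (∑ q : Γ ⧸ H, F f q.out) / Fintype.card (Γ ⧸ H), ?_, ?_, ?_, ?_⟩
  · intro f g hf hg
    simp only
    rw [← add_div, ← Finset.sum_add_distrib]
    congr 1
    refine Finset.sum_congr rfl fun q _ => ?_
    exact hadd _ _ (hb f _ hf) (hb g _ hg)
  · intro c f hf
    simp only
    rw [← mul_div_assoc, Finset.mul_sum]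
    congr 1
    refine Finset.sum_congr rfl fun q _ => ?_
    exact hsmul c _ (hb f _ hf)
  · simp only [hF]
    rw [hone, Finset.sum_const, Finset.card_univ, nsmul_eq_mul, mul_one, div_self hcard]
  · intro f hf δ
    simp only
    congr 1
    have h1 : ∀ q : Γ ⧸ H, F (fun γ => f (δ * γ)) q.out = F f (δ • q).out := by
      intro q
      have h2 : F (fun γ => f (δ * γ)) q.out = F f (δ * q.out) := by
        simp only [hF]
        congr 1
        funext k
        rw [mul_assoc]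
      rw [h2]
      apply hFk f _ _ hf
      rw [QuotientGroup.out_eq']
      have h3 : ((δ * q.out : Γ) : Γ ⧸ H) = δ • ((q.out : Γ) : Γ ⧸ H) := rfl
      rw [h3, QuotientGroup.out_eq']
    rw [Finset.sum_congr rfl fun q _ => h1 q]
    exact Equiv.sum_comp (MulAction.toPerm δ : Equiv.Perm (Γ ⧸ H)) fun q => F f q.out

theorem t_mean : S_MEAN := by
  intro Γ _ H hH hs
  apply mean_of_finiteIndex Γ H hH
  obtain ⟨n, hn⟩ := hs
  exact mean_of_invHB H (Pool.Agent.Helper240.Amen.InvHB.of_derived n H hn)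

end Pool.Agent.N225.SV
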